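import Pool.Agent.Run7.h455.Last

set_option autoImplicit false
open Matrix
open scoped ComplexOrder

namespace Pool.Agent.Results.MP_5b61e7_mp.FlatOrReduction

variable {d n : ℕ}

/-- The reduction criterion of `ρ` at the site `k`: the operator `1 ⊗ tr_k ρ - ρ` is positive
semidefinite. -/
def Reduction {ι : Type} [DecidableEq ι] (k : ι) (ρ : Matrix (ι → Fin d) (ι → Fin d) ℂ) : Prop :=
  (Matrix.of fun x y : ι → Fin d =>
    (if x k = y k then ∑ a, ρ (Function.update x k a) (Function.update y k a) else 0)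
      - ρ x y).PosSemidef

/-- The probability of the outcome `x` when the state `ρ` on the sites of `I` is measured in the
orthonormal bases of the single sites which are formed by the rows of the matrices `e j`. -/
def prob {I : Finset (Fin n)} (e : Fin n → Matrix (Fin d) (Fin d) ℂ)
    (ρ : Matrix ({j // j ∈ I} → Fin d) ({j // j ∈ I} → Fin d) ℂ) (x : {j // j ∈ I} → Fin d) : ℂ :=
  ∑ u, ∑ v, (∏ j : {j // j ∈ I}, star (e j.1 (x j) (u j))) * ρ u v
    * ∏ j : {j // j ∈ I}, e j.1 (x j) (v j)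

/-- The probability that the outcomes at the sites of `I` before `k` (in the order `π`) are those of
`y` and the outcome at `k` is `a`. -/
def joint {I : Finset (Fin n)} (π : Equiv.Perm (Fin n)) (e : Fin n → Matrix (Fin d) (Fin d) ℂ)
    (ρ : Matrix ({j // j ∈ I} → Fin d) ({j // j ∈ I} → Fin d) ℂ) (k : {j // j ∈ I})
    (y : {j // j ∈ I} → Fin d) (a : Fin d) : ℂ :=
  ∑ x : {j // j ∈ I} → Fin d,
    if (∀ j : {j // j ∈ I}, π j.1 < π k.1 → x j = y j) ∧ x k = a then prob e ρ x else 0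

/-- `k` is not one of the last three sites in the order `π`, and the set of the sites of `I` from
`k` on is neither `{k}` nor the set of all sites from `k` on. -/
def Proper (π : Equiv.Perm (Fin n)) (I : Finset (Fin n)) (k : Fin n) : Prop :=
  (π k : ℕ) + 3 < n ∧ (∃ j ∈ I, π k < π j) ∧ ∃ j, j ∉ I ∧ π k < π j

/-- Spin alignment for the von Neumann entropy, for all numbers of sites, all local dimensions, all
noise states and all weights, for the tuples of the following kind: there are an order of the sites,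
orthonormal bases of the single sites and probability vectors `p k` such that each `ρ I` of positive
weight satisfies the reduction criterion at all its proper sites, or else its outcome distribution in
the product basis is such that at each proper site of `I` the outcome, conditionally on the outcomes
at the earlier sites of `I`, is distributed according to `p k` or is deterministic. -/
theorem result :
    ∀ (d n : ℕ), 2 ≤ d → 1 ≤ n →
    ∀ (Q : Matrix (Fin d) (Fin d) ℂ), Q.PosSemidef → Q.trace = 1 →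
    ∀ (q : Fin d → ℂ) (c : ℝ), star q ⬝ᵥ q = 1 → Q *ᵥ q = (c : ℂ) • q →
    (∀ v : Fin d → ℂ, (star v ⬝ᵥ (Q *ᵥ v)).re ≤ c * (star v ⬝ᵥ v).re) →
    ∀ (μ : Finset (Fin n) → ℝ), (∀ I, 0 ≤ μ I) → ∑ I, μ I = 1 →
    ∀ (ρ : (I : Finset (Fin n)) →
        Matrix ({j // j ∈ I} → Fin d) ({j // j ∈ I} → Fin d) ℂ),
    (∀ I, (ρ I).PosSemidef ∧ (ρ I).trace = 1) →
    ∀ (π : Equiv.Perm (Fin n)) (e : Fin n → Matrix (Fin d) (Fin d) ℂ) (p : Fin n → Fin d → ℝ),
    (∀ k, e k * star (e k) = 1) → (∀ k a, 0 ≤ p k a) → (∀ k, ∑ a, p k a = 1) →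
    (∀ I, μ I ≠ 0 →
      (∀ k, ∀ h : k ∈ I, Proper π I k → Reduction ⟨k, h⟩ (ρ I)) ∨
      (∀ k, ∀ h : k ∈ I, Proper π I k → ∀ y,
        (∀ a, joint π e (ρ I) ⟨k, h⟩ y a = p k a * ∑ b, joint π e (ρ I) ⟨k, h⟩ y b) ∨
        ∃ b, ∀ a, a ≠ b → joint π e (ρ I) ⟨k, h⟩ y a = 0)) →
    ∀ (A A0 : Matrix (Fin n → Fin d) (Fin n → Fin d) ℂ),
    (∀ x y, A x y = ∑ I, (μ I : ℂ) * ρ I (fun i => x i.1) (fun i => y i.1)
        * ∏ j ∈ Iᶜ, Q (x j) (y j)) →
    (∀ x y, A0 x y = ∑ I, (μ I : ℂ) * (∏ i ∈ I, q (x i) * star (q (y i)))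
        * ∏ j ∈ Iᶜ, Q (x j) (y j)) →
    ∀ (hA : A.IsHermitian) (hA0 : A0.IsHermitian),
    ∑ x, Real.negMulLog (hA0.eigenvalues x) ≤ ∑ x, Real.negMulLog (hA.eigenvalues x) := by
  intro d n _ _ Q hQ hQ1 q c hq hc hmax μ hμ _ ρ hρ π e p he hp0 hp1 hcond A A0 hA hA0 hAh hA0h
  have hlast : ∀ k : Fin n, n - 3 ≤ (π k : ℕ) →
      Set.ncard {J : Finset (Fin n) | ∃ I : Finset (Fin n), μ I ≠ 0 ∧
        (∃ h : k ∈ I, ¬ (Run7.h455.rdm ⟨k, h⟩ (ρ I)).PosSemidef) ∧
        (∃ j ∈ I, π k < π j) ∧ (∃ j, j ∉ I ∧ π k < π j) ∧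
        J = I.filter (fun j => π k ≤ π j)} ≤ 3 := by
    intro k hk
    have h1 := Run7.h455.ncard_last π k hk
    refine le_trans (Set.ncard_le_ncard ?_ (Set.toFinite _)) h1
    rintro J ⟨I, _, ⟨h2, _⟩, h3, _, rfl⟩
    exact ⟨I, h2, h3, rfl⟩
  obtain ⟨h1, h2, h3, h4⟩ := Run7.h455.sac_order3 Q hQ hQ1 q c hq hc hmax μ hμ ρ hρ π (n - 3) e he
    p hp0 hp1 (by
      intro I hI
      rcases hcond I hI with h | h
      · exact Or.inl fun k hk h5 h6 h7 => h k hk ⟨by omega, h6, h7⟩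
      · exact Or.inr fun k hk h5 h6 h7 => h k hk ⟨by omega, h6, h7⟩) hlast A A0 hA hA0
  exact Run7.h455.ent_of_dt h1 h2 h3 h4

end Pool.Agent.Results.MP_5b61e7_mp.FlatOrReduction
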