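import Pool.Agent.Run7.h455.FinalM

set_option autoImplicit false
open Matrix
open scoped ComplexOrder

namespace Pool.Agent.Results.MP_5b61e7_mp.MarginalSpan

variable {d n : ℕ}

/-- The reduction criterion of `M` at the site `k`: the operator `1 ⊗ tr_k M - M` is positive
semidefinite. -/
def Reduction {ι : Type} [DecidableEq ι] (k : ι) (M : Matrix (ι → Fin d) (ι → Fin d) ℂ) : Prop :=
  (Matrix.of fun x y : ι → Fin d =>
    (if x k = y k then ∑ a, M (Function.update x k a) (Function.update y k a) else 0)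
      - M x y).PosSemidef

/-- `k` is not one of the last three sites in the order `π`, and the set of the sites of `I` from
`k` on is neither `{k}` nor the set of all sites from `k` on. -/
def Proper (π : Equiv.Perm (Fin n)) (I : Finset (Fin n)) (k : Fin n) : Prop :=
  (π k : ℕ) + 3 < n ∧ (∃ j ∈ I, π k < π j) ∧ ∃ j, j ∉ I ∧ π k < π j

/-- The marginal of the operator `M`, which lives on the sites of `I`, on the sites of `I` which are
not after `k` in the order `π`: the other sites of `I` are traced out. It is written as a function of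
configurations `x`, `y` of all the sites, which depends only on their values at the sites of `I` which
are not after `k`. -/
def upTo (π : Equiv.Perm (Fin n)) (k : Fin n) {I : Finset (Fin n)}
    (M : Matrix ({j // j ∈ I} → Fin d) ({j // j ∈ I} → Fin d) ℂ) :
    Matrix (Fin n → Fin d) (Fin n → Fin d) ℂ := fun x y =>
  ∑ w : {j // j ∈ I} → Fin d, if (∀ j : {j // j ∈ I}, π j.1 ≤ π k → w j = x j.1) then
    M w (fun j => if π j.1 ≤ π k then y j.1 else w j) else 0

/-- The sets of sites from `k` on, in the order `π`, which contain `k`, contain a later site and miss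
a later site. -/
abbrev Later (π : Equiv.Perm (Fin n)) (k : Fin n) : Type :=
  {J : Finset (Fin n) // k ∈ J ∧ (∀ i ∈ J, π k ≤ π i) ∧ (∃ i ∈ J, π k < π i) ∧
    ∃ i, i ∉ J ∧ π k < π i}

/-- The sets of sites before `k` in the order `π`. -/
abbrev Earlier (π : Equiv.Perm (Fin n)) (k : Fin n) : Type :=
  {H : Finset (Fin n) // ∀ i ∈ H, π i < π k}

/-- For a set `J` of sites from `k` on: the family, indexed by the sets `H` of sites before `k`, of the
marginals on `H ∪ {k}` of the operators `b (H ∪ J)`. -/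
def family (b : (I : Finset (Fin n)) → Matrix ({j // j ∈ I} → Fin d) ({j // j ∈ I} → Fin d) ℂ)
    (π : Equiv.Perm (Fin n)) (k : Fin n) (J : Later π k) :
    Earlier π k → Matrix (Fin n → Fin d) (Fin n → Fin d) ℂ :=
  fun H => upTo π k (b (H.1 ∪ J.1))

/-- Spin alignment for the von Neumann entropy, for all numbers of sites, all local dimensions, all
noise states and all weights, for the tuples of the following kind. There is an order of the sites,
and for each `I` with at least two sites, except the set of all sites, the operator `μ I • ρ I` is the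
sum of two positive semidefinite operators, such that the first one satisfies the reduction criterion
at the proper sites of `I` and, for each site `k` which is not one of the last three, the families of
marginals at `k` formed from the second ones, one family for each trace on the sites from `k` on, span
a real space of dimension at most three. -/
theorem result :
    ∀ (d n : ℕ), 2 ≤ d → 1 ≤ n →
    ∀ (Q : Matrix (Fin d) (Fin d) ℂ), Q.PosSemidef → Q.trace = 1 →
    ∀ (q : Fin d → ℂ) (c : ℝ), star q ⬝ᵥ q = 1 → Q *ᵥ q = (c : ℂ) • q →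
    (∀ v : Fin d → ℂ, (star v ⬝ᵥ (Q *ᵥ v)).re ≤ c * (star v ⬝ᵥ v).re) →
    ∀ (μ : Finset (Fin n) → ℝ), (∀ I, 0 ≤ μ I) → ∑ I, μ I = 1 →
    ∀ (ρ : (I : Finset (Fin n)) →
        Matrix ({j // j ∈ I} → Fin d) ({j // j ∈ I} → Fin d) ℂ),
    (∀ I, (ρ I).PosSemidef ∧ (ρ I).trace = 1) →
    ∀ (b : (I : Finset (Fin n)) → Matrix ({j // j ∈ I} → Fin d) ({j // j ∈ I} → Fin d) ℂ)
      (π : Equiv.Perm (Fin n)),
    (∀ I : Finset (Fin n), 2 ≤ I.card → I ≠ Finset.univ →
      (b I).PosSemidef ∧ ((μ I : ℂ) • ρ I - b I).PosSemidef ∧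
        ∀ k : {j // j ∈ I}, Proper π I k.1 → Reduction k ((μ I : ℂ) • ρ I - b I)) →
    (∀ k : Fin n, (π k : ℕ) + 3 < n →
      Module.finrank ℝ (Submodule.span ℝ (Set.range (family b π k))) ≤ 3) →
    ∀ (A A0 : Matrix (Fin n → Fin d) (Fin n → Fin d) ℂ),
    (∀ x y, A x y = ∑ I, (μ I : ℂ) * ρ I (fun i => x i.1) (fun i => y i.1)
        * ∏ j ∈ Iᶜ, Q (x j) (y j)) →
    (∀ x y, A0 x y = ∑ I, (μ I : ℂ) * (∏ i ∈ I, q (x i) * star (q (y i)))
        * ∏ j ∈ Iᶜ, Q (x j) (y j)) →
    ∀ (hA : A.IsHermitian) (hA0 : A0.IsHermitian),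
    ∑ x, Real.negMulLog (hA0.eigenvalues x) ≤ ∑ x, Real.negMulLog (hA.eigenvalues x) := by
  intro d n _ _ Q hQ hQ1 q c hq hc hmax μ hμ _ ρ hρ b π hb hcond A A0 hA hA0 hAh hA0h
  obtain ⟨h1, h2, h3, h4⟩ := Run7.h455.sac_span Q hQ hQ1 q c hq hc hmax μ hμ ρ hρ b π
    (fun I h1 h2 => ⟨(hb I h1 h2).1, (hb I h1 h2).2.1,
      fun k h h3 h4 h5 => (hb I h1 h2).2.2 ⟨k, h⟩ ⟨h3, h4, h5⟩⟩)
    (fun k hk => hcond k hk) A A0 hA hA0
  exact Run7.h455.ent_of_dt h1 h2 h3 h4

end Pool.Agent.Results.MP_5b61e7_mp.MarginalSpan
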