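import Pool.Agent.Run7.h455.Final2

set_option autoImplicit false
open Matrix
open scoped ComplexOrder

namespace Pool.Agent.Results.MP_5b61e7_mp.ReductionOrder

/-- Spin alignment for the von Neumann entropy, for all local dimensions, all noise states and all
weights, in each of the following cases: there are at most three sites; or the sites can be removed
one after another so that each time the sets of positive weight whose state violates the reduction
criterion at the removed site `k` have at most three different nontrivial traces on the remaining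
sites. The reduction criterion of `ρ I` at `k ∈ I` is `1 ⊗ tr_k (ρ I) - ρ I ≥ 0`; it holds for every
`k ∈ I` when `ρ I` is separable or has positive partial transposes at the single sites. -/
theorem result :
    ∀ (d n : ℕ), 2 ≤ d → 1 ≤ n →
    ∀ (Q : Matrix (Fin d) (Fin d) ℂ), Q.PosSemidef → Q.trace = 1 →
    ∀ (q : Fin d → ℂ) (c : ℝ), star q ⬝ᵥ q = 1 → Q *ᵥ q = (c : ℂ) • q →
    (∀ v : Fin d → ℂ, (star v ⬝ᵥ (Q *ᵥ v)).re ≤ c * (star v ⬝ᵥ v).re) →
    ∀ (μ : Finset (Fin n) → ℝ), (∀ I, 0 ≤ μ I) → ∑ I, μ I = 1 →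
    ∀ (ρ : (I : Finset (Fin n)) →
        Matrix ({j // j ∈ I} → Fin d) ({j // j ∈ I} → Fin d) ℂ),
    (∀ I, (ρ I).PosSemidef ∧ (ρ I).trace = 1) →
    (n ≤ 3 ∨ ∃ π : Equiv.Perm (Fin n), ∀ k : Fin n,
      Set.ncard {J : Finset (Fin n) | ∃ I : Finset (Fin n), μ I ≠ 0 ∧
        (∃ h : k ∈ I, ¬ (Matrix.of fun x y : {j // j ∈ I} → Fin d =>
            (if x ⟨k, h⟩ = y ⟨k, h⟩ then
              ∑ a, ρ I (Function.update x ⟨k, h⟩ a) (Function.update y ⟨k, h⟩ a) else 0)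
            - ρ I x y).PosSemidef) ∧
        (∃ j ∈ I, π k < π j) ∧ (∃ j, j ∉ I ∧ π k < π j) ∧
        J = I.filter (fun j => π k ≤ π j)} ≤ 3) →
    ∀ (A A0 : Matrix (Fin n → Fin d) (Fin n → Fin d) ℂ),
    (∀ x y, A x y = ∑ I, (μ I : ℂ) * ρ I (fun i => x i.1) (fun i => y i.1)
        * ∏ j ∈ Iᶜ, Q (x j) (y j)) →
    (∀ x y, A0 x y = ∑ I, (μ I : ℂ) * (∏ i ∈ I, q (x i) * star (q (y i)))
        * ∏ j ∈ Iᶜ, Q (x j) (y j)) →
    ∀ (hA : A.IsHermitian) (hA0 : A0.IsHermitian),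
    ∑ x, Real.negMulLog (hA0.eigenvalues x) ≤ ∑ x, Real.negMulLog (hA.eigenvalues x) := by
  intro d n _ _ Q hQ hQ1 q c hq hc hmax μ hμ _ ρ hρ hcond A A0 hA hA0 hAh hA0h
  have hc2 : ∃ π : Equiv.Perm (Fin n), ∀ k : Fin n,
      Set.ncard {J : Finset (Fin n) | ∃ I : Finset (Fin n), μ I ≠ 0 ∧
        (∃ h : k ∈ I, ¬ (Run7.h455.rdm ⟨k, h⟩ (ρ I)).PosSemidef) ∧
        (∃ j ∈ I, π k < π j) ∧ (∃ j, j ∉ I ∧ π k < π j) ∧
        J = I.filter (fun j => π k ≤ π j)} ≤ 3 := by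
    rcases hcond with h | h
    · refine ⟨Equiv.refl _, fun k => ?_⟩
      refine le_trans ?_ (Run7.h455.cond_small h μ k)
      rw [← Set.ncard_coe_finset]
      apply Set.ncard_le_ncard _ (Finset.finite_toSet _)
      rintro J ⟨I, h1, ⟨h2, _⟩, h3, h4, rfl⟩
      rw [Finset.mem_coe, Finset.mem_image]
      exact ⟨I, by rw [Finset.mem_filter]; exact ⟨Finset.mem_univ _, h1, h2, h3, h4⟩, rfl⟩
    · exact h
  obtain ⟨π, hπ⟩ := hc2
  obtain ⟨h1, h2, h3, h4⟩ := Run7.h455.sac_order2 Q hQ hQ1 q c hq hc hmax μ hμ ρ hρ π hπ A A0 hA hA0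
  exact Run7.h455.ent_of_dt h1 h2 h3 h4

end Pool.Agent.Results.MP_5b61e7_mp.ReductionOrder
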